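import Mathlib

/-!
# MP_bef951_gt, Q1: a Poisson homeomorphism that does not lift to the symplectic groupoid

For the zero Poisson bracket on `ℝ^n`, `n ≥ 1`, the canonical integration is the cotangent bundle
`T^*ℝ^n = ℝ^n × ℝ^n` with coordinates `(x, p)`, canonical symplectic form `∑ dx_i ∧ dp_i` and
`t = π`, `π (x, p) = x`.

The homeomorphism `φ (x) = (x_1 ^ 3, ..., x_n ^ 3)` is the limit, uniformly on compact sets, of the
diffeomorphisms `x ↦ (x_i ^ 3 + x_i / (k + 1))_i`, which are Poisson for the zero bracket.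
No symplectic homeomorphism `ψ` of `T^*ℝ^n` satisfies `π ∘ ψ = φ ∘ π`.

Idea: a symplectic homeomorphism satisfies `vol K ≤ vol (ψ K)` for compact `K`.  The box
`[0, a]^n × [0, 1]^n` has volume `a ^ n` and its image lies in `[0, a ^ 3]^n × [-C, C]^n`.
-/

open Filter Topology Set MeasureTheory
open scoped ContDiff

namespace Pool.Agent.Results.MP_bef951_gt.ZeroBracketNoLift

/-- A Poisson bracket on (the smooth functions of) a real normed space `E`: a bilinear, skew
operation on smooth functions which satisfies the Leibniz rule and the Jacobi identity. -/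
structure PoissonBracket (E : Type*) [NormedAddCommGroup E] [NormedSpace ℝ E] where
  /-- The bracket of two functions (only its values on smooth functions matter). -/
  br : (E → ℝ) → (E → ℝ) → (E → ℝ)
  smooth : ∀ f g : E → ℝ, ContDiff ℝ ∞ f → ContDiff ℝ ∞ g → ContDiff ℝ ∞ (br f g)
  add_left : ∀ f g h : E → ℝ, ContDiff ℝ ∞ f → ContDiff ℝ ∞ g → ContDiff ℝ ∞ h →
    br (f + g) h = br f h + br g h
  smul_left : ∀ (c : ℝ) (f h : E → ℝ), ContDiff ℝ ∞ f → ContDiff ℝ ∞ h →
    br (c • f) h = c • br f h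
  skew : ∀ f g : E → ℝ, ContDiff ℝ ∞ f → ContDiff ℝ ∞ g → br f g = - br g f
  leibniz : ∀ f g h : E → ℝ, ContDiff ℝ ∞ f → ContDiff ℝ ∞ g → ContDiff ℝ ∞ h →
    br f (g * h) = br f g * h + g * br f h
  jacobi : ∀ f g h : E → ℝ, ContDiff ℝ ∞ f → ContDiff ℝ ∞ g → ContDiff ℝ ∞ h →
    br f (br g h) + br g (br h f) + br h (br f g) = 0

/-- The zero function is smooth. -/
lemma smooth_zero (E : Type*) [NormedAddCommGroup E] [NormedSpace ℝ E] :
    ContDiff ℝ ∞ (0 : E → ℝ) := contDiff_zero_fun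

/-- The zero Poisson bracket. -/
def zeroBracket (E : Type*) [NormedAddCommGroup E] [NormedSpace ℝ E] : PoissonBracket E where
  br := fun _ _ => 0
  smooth := fun _ _ _ _ => smooth_zero E
  add_left := fun _ _ _ _ _ _ => (add_zero (0 : E → ℝ)).symm
  smul_left := fun c _ _ _ _ => (smul_zero c).symm
  skew := fun _ _ _ _ => (neg_zero (G := E → ℝ)).symm
  leibniz := fun f g h _ _ _ => by
    rw [zero_mul, mul_zero, add_zero]
  jacobi := fun _ _ _ _ _ _ => by
    rw [add_zero, add_zero]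

/-- A smooth diffeomorphism: a homeomorphism which is smooth with smooth inverse. -/
def IsDiffeo {E : Type*} [NormedAddCommGroup E] [NormedSpace ℝ E] (f : E ≃ₜ E) : Prop :=
  ContDiff ℝ ∞ (f : E → E) ∧ ContDiff ℝ ∞ (f.symm : E → E)

/-- A Poisson diffeomorphism: a diffeomorphism `f` with `{g ∘ f, h ∘ f} = {g, h} ∘ f`. -/
def IsPoissonDiffeo {E : Type*} [NormedAddCommGroup E] [NormedSpace ℝ E] (P : PoissonBracket E)
    (f : E ≃ₜ E) : Prop :=
  IsDiffeo f ∧ ∀ g h : E → ℝ, ContDiff ℝ ∞ g → ContDiff ℝ ∞ h →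
    P.br (g ∘ f) (h ∘ f) = P.br g h ∘ f

/-- `C^0` convergence: uniform convergence on compact sets. -/
def C0Limit {E : Type*} [NormedAddCommGroup E] (f : ℕ → E ≃ₜ E) (g : E ≃ₜ E) : Prop :=
  ∀ K : Set E, IsCompact K → TendstoUniformlyOn (fun k => (f k : E → E)) g atTop K

/-- A Poisson homeomorphism: a homeomorphism which is a `C^0` limit of Poisson
diffeomorphisms. -/
def IsPoissonHomeo {E : Type*} [NormedAddCommGroup E] [NormedSpace ℝ E] (P : PoissonBracket E)
    (φ : E ≃ₜ E) : Prop :=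
  ∃ f : ℕ → E ≃ₜ E, (∀ k, IsPoissonDiffeo P (f k)) ∧ C0Limit f φ

/-- The total space `T^*ℝ^n = ℝ^n × ℝ^n` of the cotangent bundle of `ℝ^n`, with coordinates
`(x, p)`. -/
abbrev Cot (n : ℕ) : Type := (Fin n → ℝ) × (Fin n → ℝ)

/-- The canonical symplectic form `∑ dx_i ∧ dp_i` of `T^*ℝ^n` (constant coefficients). -/
def canonicalForm (n : ℕ) (v w : Cot n) : ℝ := ∑ i, (v.1 i * w.2 i - w.1 i * v.2 i)

/-- A symplectic diffeomorphism of `T^*ℝ^n`. -/
def IsSymplecticDiffeo {n : ℕ} (f : Cot n ≃ₜ Cot n) : Prop :=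
  IsDiffeo f ∧ ∀ z v w : Cot n,
    canonicalForm n (fderiv ℝ f z v) (fderiv ℝ f z w) = canonicalForm n v w

/-- A symplectic homeomorphism of `T^*ℝ^n`: a homeomorphism which is a `C^0` limit of symplectic
diffeomorphisms. -/
def IsSymplecticHomeo {n : ℕ} (ψ : Cot n ≃ₜ Cot n) : Prop :=
  ∃ f : ℕ → Cot n ≃ₜ Cot n, (∀ k, IsSymplecticDiffeo (f k)) ∧ C0Limit f ψ

/-! ### The cube homeomorphism and its smooth approximations -/

/-- The strictly monotone surjection `t ↦ t ^ 3 + c t`, `c ≥ 0`. -/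
noncomputable def cubeIso (c : ℝ) (hc : 0 ≤ c) : ℝ ≃o ℝ :=
  StrictMono.orderIsoOfSurjective (fun t : ℝ => t ^ 3 + c * t)
    (by
      intro a b hab
      have h1 : a ^ 3 < b ^ 3 := (Odd.strictMono_pow (by decide : Odd 3)) hab
      have h2 : c * a ≤ c * b := mul_le_mul_of_nonneg_left hab.le hc
      show a ^ 3 + c * a < b ^ 3 + c * b
      linarith)
    (by
      apply Continuous.surjective (by fun_prop)
      · refine Filter.tendsto_atTop_mono' (f₁ := fun t : ℝ => t) atTop ?_ tendsto_id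
        filter_upwards [eventually_ge_atTop (1 : ℝ)] with t ht
        nlinarith [mul_nonneg hc (by linarith : (0:ℝ) ≤ t), sq_nonneg (t - 1), sq_nonneg t,
          mul_nonneg (sq_nonneg t) (by linarith : (0:ℝ) ≤ t - 1)]
      · refine Filter.tendsto_atBot_mono' (f₁ := fun t : ℝ => t) atBot ?_ tendsto_id
        filter_upwards [eventually_le_atBot (-1 : ℝ)] with t ht
        nlinarith [mul_nonneg hc (by linarith : (0:ℝ) ≤ -t), sq_nonneg (t - 1), sq_nonneg t,
          mul_nonneg (sq_nonneg t) (by linarith : (0:ℝ) ≤ -t - 1)])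

/-- `t ↦ t ^ 3 + c t` as a homeomorphism of the line. -/
noncomputable def cubeHomeo (c : ℝ) (hc : 0 ≤ c) : ℝ ≃ₜ ℝ := (cubeIso c hc).toHomeomorph

lemma cubeHomeo_apply (c : ℝ) (hc : 0 ≤ c) (t : ℝ) : cubeHomeo c hc t = t ^ 3 + c * t := rfl

lemma cubeHomeo_diffeo (c : ℝ) (hc : 0 < c) : IsDiffeo (cubeHomeo c hc.le) := by
  have h1 : ContDiff ℝ ∞ (cubeHomeo c hc.le : ℝ → ℝ) := by
    have : (cubeHomeo c hc.le : ℝ → ℝ) = fun t => t ^ 3 + c * t := rfl
    rw [this]; fun_prop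
  refine ⟨h1, ?_⟩
  refine Homeomorph.contDiff_symm_deriv (cubeHomeo c hc.le) (f' := fun t => 3 * t ^ 2 + c) ?_ ?_ h1
  · intro x
    positivity
  · intro x
    have h3 : HasDerivAt (fun t : ℝ => t ^ 3 + c * t) ((3 : ℕ) * x ^ (3 - 1) + c * 1) x :=
      (hasDerivAt_pow 3 x).add ((hasDerivAt_id' x).const_mul c)
    have h4 : ((3 : ℕ) * x ^ (3 - 1) + c * 1 : ℝ) = 3 * x ^ 2 + c := by norm_num
    rw [h4] at h3
    exact h3

/-- The coordinatewise homeomorphism `x ↦ (x_i ^ 3 + c x_i)_i`. -/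
noncomputable def cubeN (n : ℕ) (c : ℝ) (hc : 0 ≤ c) : (Fin n → ℝ) ≃ₜ (Fin n → ℝ) :=
  Homeomorph.piCongrRight (fun _ => cubeHomeo c hc)

lemma cubeN_apply (n : ℕ) (c : ℝ) (hc : 0 ≤ c) (x : Fin n → ℝ) (i : Fin n) :
    cubeN n c hc x i = x i ^ 3 + c * x i := rfl

lemma cubeN_diffeo (n : ℕ) (c : ℝ) (hc : 0 < c) : IsDiffeo (cubeN n c hc.le) := by
  obtain ⟨h1, h2⟩ := cubeHomeo_diffeo c hc
  constructor
  · rw [contDiff_pi]
    intro i
    exact h1.comp (contDiff_apply ℝ ℝ i)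
  · rw [contDiff_pi]
    intro i
    exact h2.comp (contDiff_apply ℝ ℝ i)

lemma cube_isPoissonHomeo (n : ℕ) :
    IsPoissonHomeo (zeroBracket (Fin n → ℝ)) (cubeN n 0 le_rfl) := by
  refine ⟨fun k => cubeN n (1 / ((k : ℝ) + 1)) (by positivity), fun k => ⟨?_, ?_⟩, ?_⟩
  · exact cubeN_diffeo n _ (by positivity)
  · intro g h _ _
    rfl
  · intro K hK
    rw [Metric.tendstoUniformlyOn_iff]
    intro ε hε
    obtain ⟨R, hR⟩ := hK.isBounded.exists_norm_le
    have hlim : Tendsto (fun k : ℕ => 1 / ((k : ℝ) + 1) * (|R| + 1)) atTop (𝓝 0) := by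
      have := tendsto_one_div_add_atTop_nhds_zero_nat (𝕜 := ℝ)
      simpa using this.mul_const (|R| + 1)
    filter_upwards [hlim.eventually_lt_const hε] with k hk x hx
    refine lt_of_le_of_lt ?_ hk
    rw [dist_pi_le_iff (by positivity)]
    intro i
    rw [cubeN_apply, cubeN_apply, Real.dist_eq]
    have h1 : |x i| ≤ |R| + 1 := by
      calc |x i| = ‖x i‖ := rfl
        _ ≤ ‖x‖ := norm_le_pi_norm x i
        _ ≤ R := hR x hx
        _ ≤ |R| := le_abs_self R
        _ ≤ |R| + 1 := by linarith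
    have h2 : x i ^ 3 + 0 * x i - (x i ^ 3 + 1 / ((k : ℝ) + 1) * x i)
        = - (1 / ((k : ℝ) + 1) * x i) := by ring
    rw [h2, abs_neg, abs_mul, abs_of_nonneg (by positivity : (0:ℝ) ≤ 1 / ((k : ℝ) + 1))]
    exact mul_le_mul_of_nonneg_left h1 (by positivity)

/-! ### Symplectic diffeomorphisms preserve volume -/

/-- The canonical form as a bilinear form. -/
noncomputable def formB (n : ℕ) : LinearMap.BilinForm ℝ (Cot n) :=
  LinearMap.mk₂ ℝ (canonicalForm n)
    (by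
      intro a b c
      simp only [canonicalForm, ← Finset.sum_add_distrib]
      refine Finset.sum_congr rfl fun i _ => ?_
      simp only [Prod.fst_add, Prod.snd_add, Pi.add_apply]; ring)
    (by
      intro r a b
      simp only [canonicalForm, smul_eq_mul, Finset.mul_sum]
      refine Finset.sum_congr rfl fun i _ => ?_
      simp only [Prod.smul_fst, Prod.smul_snd, Pi.smul_apply, smul_eq_mul]; ring)
    (by
      intro a b c
      simp only [canonicalForm, ← Finset.sum_add_distrib]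
      refine Finset.sum_congr rfl fun i _ => ?_
      simp only [Prod.fst_add, Prod.snd_add, Pi.add_apply]; ring)
    (by
      intro r a b
      simp only [canonicalForm, smul_eq_mul, Finset.mul_sum]
      refine Finset.sum_congr rfl fun i _ => ?_
      simp only [Prod.smul_fst, Prod.smul_snd, Pi.smul_apply, smul_eq_mul]; ring)

lemma formB_apply (n : ℕ) (v w : Cot n) : formB n v w = canonicalForm n v w := rfl

lemma formB_nondeg (n : ℕ) : (formB n).Nondegenerate := by
  have key : ∀ v : Cot n, (∀ w, canonicalForm n v w = 0) → v = 0 := by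
    intro v hv
    have h1 : ∀ i, v.1 i = 0 := by
      intro i
      have := hv (0, Pi.single i 1)
      simpa [canonicalForm, Pi.single_apply] using this
    have h2 : ∀ i, v.2 i = 0 := by
      intro i
      have := hv (Pi.single i 1, 0)
      simpa [canonicalForm, Pi.single_apply] using this
    ext i
    · exact h1 i
    · exact h2 i
  constructor
  · intro v hv
    exact key v hv
  · intro v hv
    apply key v
    intro w
    have h := hv w
    rw [formB_apply] at h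
    have h2 : canonicalForm n v w = - canonicalForm n w v := by
      simp only [canonicalForm, ← Finset.sum_neg_distrib]
      refine Finset.sum_congr rfl fun i _ => by ring
    rw [h2, h, neg_zero]

lemma abs_det_eq_one {n : ℕ} (A : Cot n →L[ℝ] Cot n)
    (hA : ∀ v w, canonicalForm n (A v) (A w) = canonicalForm n v w) : |A.det| = 1 := by
  classical
  let b := Module.finBasis ℝ (Cot n)
  have hcomp : (formB n).comp (A : Cot n →ₗ[ℝ] Cot n) (A : Cot n →ₗ[ℝ] Cot n) = formB n := by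
    ext v w <;> simp [LinearMap.BilinForm.comp_apply, formB_apply, hA]
  have h1 := LinearMap.BilinForm.toMatrix_comp b b (formB n) (A : Cot n →ₗ[ℝ] Cot n)
    (A : Cot n →ₗ[ℝ] Cot n)
  rw [hcomp] at h1
  have h2 : ((LinearMap.BilinForm.toMatrix b) (formB n)).det ≠ 0 :=
    (LinearMap.BilinForm.nondegenerate_iff_det_ne_zero b).1 (formB_nondeg n)
  have h3 := congrArg Matrix.det h1
  rw [Matrix.det_mul, Matrix.det_mul, Matrix.det_transpose, LinearMap.det_toMatrix] at h3
  have h4 : (LinearMap.det (A : Cot n →ₗ[ℝ] Cot n)) * (LinearMap.det (A : Cot n →ₗ[ℝ] Cot n)) = 1 := by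
    have : ((LinearMap.BilinForm.toMatrix b) (formB n)).det *
        (LinearMap.det (A : Cot n →ₗ[ℝ] Cot n) * LinearMap.det (A : Cot n →ₗ[ℝ] Cot n) - 1) = 0 := by
      linear_combination - h3
    rcases mul_eq_zero.1 this with h | h
    · exact absurd h h2
    · linarith
  have h5 : A.det = LinearMap.det (A : Cot n →ₗ[ℝ] Cot n) := rfl
  rw [h5]
  have h6 : |LinearMap.det (A : Cot n →ₗ[ℝ] Cot n)| * |LinearMap.det (A : Cot n →ₗ[ℝ] Cot n)| = 1 := by
    rw [← abs_mul, h4, abs_one]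
  nlinarith [abs_nonneg (LinearMap.det (A : Cot n →ₗ[ℝ] Cot n))]

lemma volume_image {n : ℕ} (f : Cot n ≃ₜ Cot n) (hf : IsSymplecticDiffeo f) (K : Set (Cot n))
    (hK : MeasurableSet K) : volume (f '' K) = volume K := by
  have h1 : ∀ x ∈ K, HasFDerivWithinAt f (fderiv ℝ f x) K x := by
    intro x _
    exact ((hf.1.1.differentiable (by simp)) x).hasFDerivAt.hasFDerivWithinAt
  have : (volume : Measure (Cot n)).IsAddHaarMeasure :=
    Measure.prod.instIsAddHaarMeasure volume volume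
  have h2 := lintegral_abs_det_fderiv_eq_addHaar_image (volume : Measure (Cot n)) hK h1
    f.injective.injOn
  rw [← h2]
  have h3 : ∀ x, ENNReal.ofReal |(fderiv ℝ f x).det| = 1 := by
    intro x
    rw [abs_det_eq_one (fderiv ℝ f x) (hf.2 x), ENNReal.ofReal_one]
  simp only [h3, lintegral_const, Measure.restrict_apply_univ, one_mul]

/-! ### The area argument -/

/-- The box `[l, u]^n × [l', u']^n`. -/
def box (n : ℕ) (l u l' u' : ℝ) : Set (Cot n) :=
  (Icc (fun _ => l) (fun _ => u)) ×ˢ (Icc (fun _ => l') (fun _ => u'))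

lemma box_compact (n : ℕ) (l u l' u' : ℝ) : IsCompact (box n l u l' u') :=
  isCompact_Icc.prod isCompact_Icc

lemma volume_box (n : ℕ) (l u l' u' : ℝ) :
    volume (box n l u l' u') = ENNReal.ofReal (u - l) ^ n * ENNReal.ofReal (u' - l') ^ n := by
  rw [box, Measure.volume_eq_prod, Measure.prod_prod, Real.volume_Icc_pi, Real.volume_Icc_pi]
  simp

lemma key {n : ℕ} (ψ : Cot n ≃ₜ Cot n) (hψ : IsSymplecticHomeo ψ)
    (hlift : ∀ z, (ψ z).1 = cubeN n 0 le_rfl z.1) :
    ∃ C : ℝ, 0 ≤ C ∧ ∀ a : ℝ, 0 < a → a ≤ 1 →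
      a ^ n ≤ (3 * a ^ 3) ^ n * (2 * C + 2) ^ n := by
  obtain ⟨f, hf, hlim⟩ := hψ
  have hcomp : IsCompact (ψ '' box n 0 1 0 1) := (box_compact n 0 1 0 1).image ψ.continuous
  obtain ⟨C, hC⟩ := hcomp.isBounded.exists_norm_le
  refine ⟨|C|, abs_nonneg C, fun a ha ha1 => ?_⟩
  have ha3 : 0 < a ^ 3 := by positivity
  have ha31 : a ^ 3 ≤ 1 := pow_le_one₀ ha.le ha1
  have hu := hlim (box n 0 a 0 1) (box_compact n 0 a 0 1)
  rw [Metric.tendstoUniformlyOn_iff] at hu
  obtain ⟨k, hk⟩ := (hu (a ^ 3) ha3).exists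
  -- the image of the box under `f k` is in a slightly larger box
  have hsub : (f k) '' (box n 0 a 0 1) ⊆
      box n (-(a ^ 3)) (2 * a ^ 3) (-(|C| + 1)) (|C| + 1) := by
    rintro _ ⟨z, hz, rfl⟩
    have hzd := hk z hz
    rw [Prod.dist_eq, max_lt_iff] at hzd
    obtain ⟨hz1, hz2⟩ := hz
    have hzbox : z ∈ box n 0 1 0 1 := ⟨⟨hz1.1, fun i => (hz1.2 i).trans ha1⟩, hz2⟩
    have hnorm : ‖ψ z‖ ≤ |C| := (hC _ ⟨z, hzbox, rfl⟩).trans (le_abs_self C)
    refine ⟨⟨fun i => ?_, fun i => ?_⟩, ⟨fun i => ?_, fun i => ?_⟩⟩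
    · have h1 : dist ((ψ z).1 i) ((f k z).1 i) < a ^ 3 := (dist_le_pi_dist _ _ i).trans_lt hzd.1
      rw [hlift, cubeN_apply, Real.dist_eq, abs_lt] at h1
      have h2 : 0 ≤ z.1 i := hz1.1 i
      have h3 : 0 ≤ (z.1 i) ^ 3 := by positivity
      show -(a ^ 3) ≤ (f k z).1 i
      linarith [h1.2]
    · have h1 : dist ((ψ z).1 i) ((f k z).1 i) < a ^ 3 := (dist_le_pi_dist _ _ i).trans_lt hzd.1
      rw [hlift, cubeN_apply, Real.dist_eq, abs_lt] at h1
      have h2 : 0 ≤ z.1 i := hz1.1 i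
      have h4 : z.1 i ≤ a := hz1.2 i
      have h3 : (z.1 i) ^ 3 ≤ a ^ 3 := pow_le_pow_left₀ h2 h4 3
      show (f k z).1 i ≤ 2 * a ^ 3
      linarith [h1.1]
    · have h1 : dist ((ψ z).2 i) ((f k z).2 i) < a ^ 3 := (dist_le_pi_dist _ _ i).trans_lt hzd.2
      rw [Real.dist_eq, abs_lt] at h1
      have h2 : |(ψ z).2 i| ≤ |C| :=
        ((norm_le_pi_norm (ψ z).2 i).trans (norm_snd_le (ψ z))).trans hnorm
      have h3 := (abs_le.1 h2).1
      show -(|C| + 1) ≤ (f k z).2 i
      linarith [h1.2]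
    · have h1 : dist ((ψ z).2 i) ((f k z).2 i) < a ^ 3 := (dist_le_pi_dist _ _ i).trans_lt hzd.2
      rw [Real.dist_eq, abs_lt] at h1
      have h2 : |(ψ z).2 i| ≤ |C| :=
        ((norm_le_pi_norm (ψ z).2 i).trans (norm_snd_le (ψ z))).trans hnorm
      have h3 := (abs_le.1 h2).2
      show (f k z).2 i ≤ |C| + 1
      linarith [h1.1]
  have hvol : volume (box n 0 a 0 1) ≤
      volume (box n (-(a ^ 3)) (2 * a ^ 3) (-(|C| + 1)) (|C| + 1)) := by
    rw [← volume_image (f k) (hf k) (box n 0 a 0 1) (box_compact n 0 a 0 1).measurableSet]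
    exact measure_mono hsub
  rw [volume_box, volume_box] at hvol
  have e1 : (2 * a ^ 3 - -(a ^ 3)) = 3 * a ^ 3 := by ring
  have e2 : (|C| + 1 - -(|C| + 1)) = 2 * |C| + 2 := by ring
  rw [e1, e2, sub_zero, sub_zero, ENNReal.ofReal_one, one_pow, mul_one,
    ← ENNReal.ofReal_pow ha.le, ← ENNReal.ofReal_pow (by positivity),
    ← ENNReal.ofReal_pow (by positivity), ← ENNReal.ofReal_mul (by positivity),
    ENNReal.ofReal_le_ofReal_iff (by positivity)] at hvol
  exact hvol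

/-- **A Poisson homeomorphism which does not lift.**  For every `n ≥ 1` the map
`φ (x) = (x_1 ^ 3, ..., x_n ^ 3)` is a Poisson homeomorphism of `ℝ^n` with the zero bracket, and
no symplectic homeomorphism `ψ` of `T^*ℝ^n` satisfies `π ∘ ψ = φ ∘ π`. -/
theorem result (n : ℕ) (hn : 1 ≤ n) :
    ∃ φ : (Fin n → ℝ) ≃ₜ (Fin n → ℝ), (∀ x i, φ x i = x i ^ 3) ∧
      IsPoissonHomeo (zeroBracket (Fin n → ℝ)) φ ∧
      ¬ ∃ ψ : Cot n ≃ₜ Cot n, IsSymplecticHomeo ψ ∧ ∀ z : Cot n, (ψ z).1 = φ z.1 := by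
  refine ⟨cubeN n 0 le_rfl, fun x i => by rw [cubeN_apply]; ring, cube_isPoissonHomeo n, ?_⟩
  rintro ⟨ψ, hψ, hlift⟩
  obtain ⟨C, hC, hkey⟩ := key ψ hψ hlift
  -- choose `a` with `3 * a ^ 2 * (2 * C + 2) < 1`
  set a : ℝ := 1 / (6 * C + 7) with ha_def
  have hden : 0 < 6 * C + 7 := by linarith
  have ha : 0 < a := by positivity
  have ha1 : a ≤ 1 := by
    rw [ha_def, div_le_one hden]; linarith
  have h := hkey a ha ha1
  rw [← mul_pow] at h
  have h2 : a ≤ 3 * a ^ 3 * (2 * C + 2) :=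
    le_of_pow_le_pow_left₀ (by omega) (by positivity) h
  have h3 : a * (6 * C + 7) = 1 := by
    rw [ha_def]; field_simp
  have h4 : 3 * a ^ 3 * (2 * C + 2) < a := by
    have : 3 * a ^ 2 * (2 * C + 2) < 1 := by
      have h5 : a * (6 * C + 6) < 1 := by nlinarith
      nlinarith
    nlinarith
  linarith

end Pool.Agent.Results.MP_bef951_gt.ZeroBracketNoLift
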